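import Pool.Agent.Run7.h759.UD.IfaceC
import Pool.Agent.Run7.h759.UM.P6

/-!
# Piece U1: finite modules as coefficients
-/

set_option autoImplicit false

namespace Pool.Agent.Run7.h929.UD

open Subgroup Pool.Agent.W5h77.MB Pool.Agent.Run7.h759.UM
  Pool.Agent.Run7.h759.UD IntermediateField
open Pool.Agent.Q60.MU hiding Qb
open scoped commutatorElement Pointwise

/-- functions which are right invariant under a subgroup of finite index -/
theorem card_le {𝔾 : Type} [Group 𝔾] {A : Type} [Finite A] {G W : Subgroup 𝔾}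
    (hi : W.relIndex G ≠ 0) (s : Finset (𝔾 → A))
    (h1 : ∀ f ∈ s, ∀ g ∈ G, ∀ w ∈ W, f (g * w) = f g)
    (h2 : ∀ f ∈ s, ∀ f' ∈ s, (∀ g ∈ G, f g = f' g) → f = f') :
    s.card ≤ Nat.card A ^ W.relIndex G := by
  classical
  have hfin : Finite (G ⧸ W.subgroupOf G) := by
    apply Nat.finite_of_card_ne_zero
    exact hi
  have hcard : Nat.card ((G ⧸ W.subgroupOf G) → A) = Nat.card A ^ W.relIndex G := by
    rw [Nat.card_fun]
    rfl
  rw [← hcard]
  have h3 : Function.Injective (fun (f : s) (q : G ⧸ W.subgroupOf G) => f.1 (q.out : G)) := by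
    intro f f' hff
    apply Subtype.ext
    apply h2 f.1 f.2 f'.1 f'.2
    intro g hg
    have h4 := congrFun hff (QuotientGroup.mk (⟨g, hg⟩ : G))
    have h5 : ((QuotientGroup.mk (⟨g, hg⟩ : G) : G ⧸ W.subgroupOf G).out)⁻¹ * ⟨g, hg⟩ ∈
        W.subgroupOf G := by
      rw [← QuotientGroup.eq, QuotientGroup.out_eq']
    rw [Subgroup.mem_subgroupOf] at h5
    set r : G := (QuotientGroup.mk (⟨g, hg⟩ : G) : G ⧸ W.subgroupOf G).out with hr
    have h6 : g = (r : 𝔾) * (((r⁻¹ * ⟨g, hg⟩ : G)) : 𝔾) := by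
      show g = (r : 𝔾) * ((r : 𝔾)⁻¹ * g)
      rw [mul_inv_cancel_left]
    rw [h6, h1 f.1 f.2 r r.2 _ h5, h1 f'.1 f'.2 r r.2 _ h5]
    exact h4
  have h4 := Nat.card_le_card_of_injective _ h3
  rwa [Nat.card_eq_fintype_card, Fintype.card_coe] at h4

theorem t_U1 : S_coef := by
  classical
  intro p hp T I hT hμ L hL A _ ρ hc
  obtain ⟨F', hF', hLF, hρ⟩ := hc.cont
  obtain ⟨C, hC⟩ := (muNull_iff hT).1 (hμ F' hF')
  have hF'd : FiniteDimensional ℚ F' := hF'
  have hLd : FiniteDimensional ℚ L := hL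
  have hAf : Finite A := hc.fin
  have hApos : 0 < Nat.card A := Nat.card_pos
  refine ⟨Nat.card A ^ (C * F'.fixingSubgroup.index), fun n R hR => ?_⟩
  intro s hs hdis
  have hRd : FiniteDimensional ℚ R := layer_fd hp.out hR
  have hle : F'.fixingSubgroup ≤ L.fixingSubgroup := fixingSubgroup_le hLF
  have hH : (F' ⊔ R).fixingSubgroup = F'.fixingSubgroup ⊓ R.fixingSubgroup := fixingSubgroup_sup
  have hG : (L ⊔ R).fixingSubgroup = L.fixingSubgroup ⊓ R.fixingSubgroup := fixingSubgroup_sup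
  have hHG : (F' ⊔ R).fixingSubgroup ≤ (L ⊔ R).fixingSubgroup := by
    rw [hH, hG]
    exact inf_le_inf_right _ hle
  have hcoc : ∀ f ∈ s, ∀ σ ∈ (L ⊔ R).fixingSubgroup, ∀ τ ∈ (L ⊔ R).fixingSubgroup,
      f (σ * τ) = f σ + ρ σ (f τ) := fun f hf σ hσ τ hτ =>
    (hs f hf).coc σ τ (fixes_iff.2 hσ) (fixes_iff.2 hτ)
  have hρH : ∀ σ ∈ (F' ⊔ R).fixingSubgroup, ∀ a, ρ σ a = a := by
    intro σ hσ a
    rw [hH] at hσ
    exact hρ σ (fixes_iff.2 hσ.1) a
  have hadd : ∀ f ∈ s, ∀ σ ∈ (F' ⊔ R).fixingSubgroup, ∀ τ ∈ (F' ⊔ R).fixingSubgroup,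
      f (σ * τ) = f σ + f τ := by
    intro f hf σ hσ τ hτ
    rw [hcoc f hf σ (hHG hσ) τ (hHG hτ), hρH σ hσ]
  have hone : ∀ f ∈ s, f 1 = 0 := by
    intro f hf
    have h1 := hadd f hf 1 (one_mem _) 1 (one_mem _)
    rw [mul_one] at h1
    exact (add_eq_left.1 h1.symm)
  have hinv : ∀ f ∈ s, ∀ σ ∈ (F' ⊔ R).fixingSubgroup, f σ⁻¹ = - f σ := by
    intro f hf σ hσ
    have h1 := hadd f hf σ hσ σ⁻¹ (inv_mem hσ)
    rw [mul_inv_cancel, hone f hf] at h1
    exact (neg_eq_of_add_eq_zero_right h1.symm).symm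
  have hpow : ∀ f ∈ s, ∀ σ ∈ (F' ⊔ R).fixingSubgroup, ∀ k : ℕ, f (σ ^ k) = k • f σ := by
    intro f hf σ hσ k
    induction k with
    | zero => rw [pow_zero, zero_smul, hone f hf]
    | succ k ih => rw [pow_succ, hadd f hf _ (pow_mem hσ k) _ hσ, ih, succ_nsmul]
  -- the subgroup
  let W : Subgroup Gal(Qb/ℚ) :=
    { carrier := {σ | σ ∈ (F' ⊔ R).fixingSubgroup ∧ ∀ f ∈ s, f σ = 0}
      mul_mem' := by
        rintro σ τ ⟨h1, h2⟩ ⟨h3, h4⟩
        refine ⟨mul_mem h1 h3, fun f hf => ?_⟩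
        rw [hadd f hf σ h1 τ h3, h2 f hf, h4 f hf, add_zero]
      one_mem' := ⟨one_mem _, hone⟩
      inv_mem' := by
        rintro σ ⟨h1, h2⟩
        refine ⟨inv_mem h1, fun f hf => ?_⟩
        rw [hinv f hf σ h1, h2 f hf, neg_zero] }
  have hWmem : ∀ σ, σ ∈ W ↔ σ ∈ (F' ⊔ R).fixingSubgroup ∧ ∀ f ∈ s, f σ = 0 := fun σ => Iff.rfl
  have hWH : W ≤ (F' ⊔ R).fixingSubgroup := fun σ hσ => ((hWmem σ).1 hσ).1
  obtain ⟨E, hE, hE0⟩ : ∃ E : Fld, IsNF E ∧ ∀ f ∈ s, ∀ σ, Fixes σ E → f σ = 0 := by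
    have h1 : ∀ t : Finset (Gal(Qb/ℚ) → A), t ⊆ s →
        ∃ E : Fld, IsNF E ∧ ∀ f ∈ t, ∀ σ, Fixes σ E → f σ = 0 := by
      intro t
      induction t using Finset.induction_on with
      | empty =>
        intro _
        exact ⟨L, hL, fun f hf => absurd hf (Finset.notMem_empty f)⟩
      | insert g t hg ih =>
        intro hts
        obtain ⟨E, hE, hE0⟩ := ih (fun x hx => hts (Finset.mem_insert_of_mem hx))
        obtain ⟨E', hE', -, hE'0⟩ := (hs g (hts (Finset.mem_insert_self g t))).cont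
        have hEd : FiniteDimensional ℚ E := hE
        have hE'd : FiniteDimensional ℚ E' := hE'
        refine ⟨E ⊔ E', (inferInstance : FiniteDimensional ℚ (E ⊔ E' : Fld)), ?_⟩
        intro f hf σ hσ
        rcases Finset.mem_insert.1 hf with rfl | hf
        · exact hE'0 σ fun x hx => hσ x ((le_sup_right : E' ≤ E ⊔ E') hx)
        · exact hE0 f hf σ fun x hx => hσ x ((le_sup_left : E ≤ E ⊔ E') hx)
    exact h1 s (Finset.Subset.refl s)
  have hEd : FiniteDimensional ℚ E := hE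
  have hEW : (E ⊔ (F' ⊔ R)).fixingSubgroup ≤ W := by
    intro σ hσ
    have h1 : (E ⊔ (F' ⊔ R)).fixingSubgroup = E.fixingSubgroup ⊓ (F' ⊔ R).fixingSubgroup :=
      fixingSubgroup_sup
    rw [h1] at hσ
    exact ⟨hσ.2, fun f hf => hE0 f hf σ (fixes_iff.2 hσ.1)⟩
  have hWo : IsOpen (W : Set Gal(Qb/ℚ)) :=
    Subgroup.isOpen_mono hEW (IntermediateField.fixingSubgroup_isOpen _)
  have hWi : W.index ≠ 0 := by
    have h1 := index_ne_zero' (E ⊔ (F' ⊔ R))
    intro h0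
    exact h1 (Nat.eq_zero_of_zero_dvd (h0 ▸ index_dvd_of_le hEW))
  have hWf : W.FiniteIndex := ⟨hWi⟩
  have hrel : ∀ K : Subgroup Gal(Qb/ℚ), W.relIndex K ≠ 0 := fun K =>
    (inferInstance : (W.subgroupOf K).FiniteIndex).index_ne_zero
  have hgens : gens p I (F' ⊔ R).fixingSubgroup ⊆ W := by
    rintro x ((⟨a, ha, rfl⟩ | ⟨a, ha, b, hb, rfl⟩) | ⟨hx, w, hw⟩)
    · refine ⟨pow_mem ha p, fun f hf => ?_⟩
      rw [hpow f hf a ha p, hc.exp]
    · refine ⟨?_, fun f hf => ?_⟩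
      · rw [commutatorElement_def]
        exact mul_mem (mul_mem (mul_mem ha hb) (inv_mem ha)) (inv_mem hb)
      · rw [commutatorElement_def, hadd f hf _ (mul_mem (mul_mem ha hb) (inv_mem ha)) _ (inv_mem hb),
          hadd f hf _ (mul_mem ha hb) _ (inv_mem ha), hadd f hf _ ha _ hb, hinv f hf a ha,
          hinv f hf b hb]
        abel
    · refine ⟨hx, fun f hf => ?_⟩
      rcases (hT w x).1 hw with h1 | h1
      · obtain ⟨a, ha⟩ := (hs f hf).loc w
        have h2 := ha x h1 (fixes_iff.2 (hHG hx))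
        rw [h2, hρH x hx, sub_self]
      · rw [h1, hone f hf]
  have hRank : RankLe p I (F' ⊔ R).fixingSubgroup C :=
    (t_rel.1 p _ I (F' ⊔ R) C inferInstance).2 (hC n R hR)
  have h1 : W.relIndex (F' ⊔ R).fixingSubgroup ≤ C := hRank W hWH hWo (hrel _) hgens
  have h2 : (F' ⊔ R).fixingSubgroup.relIndex (L ⊔ R).fixingSubgroup ≤ F'.fixingSubgroup.index := by
    rw [hH, hG]
    have h3 : (F'.fixingSubgroup ⊓ R.fixingSubgroup).relIndex
        (L.fixingSubgroup ⊓ R.fixingSubgroup) =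
        F'.fixingSubgroup.relIndex (L.fixingSubgroup ⊓ R.fixingSubgroup) := by
      rw [← Subgroup.inf_relIndex_right, ← Subgroup.inf_relIndex_right F'.fixingSubgroup]
      congr 1
      ext x
      simp only [Subgroup.mem_inf]
      tauto
    rw [h3]
    exact relIndex_le_index _ _ (index_ne_zero' F')
  have h3 : W.relIndex (L ⊔ R).fixingSubgroup ≤ C * F'.fixingSubgroup.index := by
    rw [← Subgroup.relIndex_mul_relIndex W (F' ⊔ R).fixingSubgroup (L ⊔ R).fixingSubgroup hWH hHG]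
    exact Nat.mul_le_mul h1 h2
  have hρ0 : ∀ σ ∈ (L ⊔ R).fixingSubgroup, ρ σ 0 = 0 := by
    intro σ hσ
    rw [hG] at hσ
    have h4 := hc.add σ (fixes_iff.2 hσ.1) 0 0
    rw [add_zero] at h4
    exact add_eq_left.1 h4.symm
  have h4 : s.card ≤ Nat.card A ^ W.relIndex (L ⊔ R).fixingSubgroup := by
    apply card_le (hrel _) s
    · intro f hf g hg w hw
      rw [hcoc f hf g hg w (hHG (hWH hw)), ((hWmem w).1 hw).2 f hf, hρ0 g hg, add_zero]
    · intro f hf f' hf' hff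
      apply hdis f hf f' hf'
      refine ⟨0, fun σ hσ => ?_⟩
      have hσ' := fixes_iff.1 hσ
      rw [hff σ hσ', hρ0 σ hσ', sub_self, sub_self]
  exact h4.trans (Nat.pow_le_pow_right hApos h3)

end Pool.Agent.Run7.h929.UD
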